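import Pool.Agent.Work.DelAsy.Defs

set_option autoImplicit false

/-! U1: the number of vertex sets with few crossing edges in a graph of minimum degree `k`. -/

namespace Pool.Agent.Work.DelAsy

open Finset Pool.Agent.Work.MP_60abc6_co

namespace U1

variable {V : Type} [Fintype V] [DecidableEq V]


lemma sum_prod (g h : V → ℝ) :
    ∑ S : Finset V, (∏ v ∈ S, g v) * ∏ v ∈ univ \ S, h v = ∏ v, (g v + h v) := by
  rw [prod_add, powerset_univ]

/-- the weight of a random subset of rate `τ` -/
noncomputable def wt (τ : ℝ) (S : Finset V) : ℝ := (∏ _v ∈ S, τ) * ∏ _v ∈ univ \ S, (1 - τ)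

lemma wt_pos {τ : ℝ} (h0 : 0 < τ) (h1 : τ < 1) (S : Finset V) : 0 < wt τ S := by
  unfold wt
  have : 0 < 1 - τ := by linarith
  exact mul_pos (prod_pos fun _ _ => h0) (prod_pos fun _ _ => this)

lemma sum_wt_theta (τ : ℝ) (θ : V → ℝ) :
    ∑ S : Finset V, wt τ S * ∏ v ∈ S, θ v = ∏ v, (τ * θ v + (1 - τ)) := by
  rw [← sum_prod]
  refine sum_congr rfl fun S _ => ?_
  unfold wt
  rw [prod_mul_distrib]
  ring

lemma sum_wt (τ : ℝ) : ∑ S : Finset V, wt τ S = 1 := by
  have h := sum_wt_theta τ (fun _ : V => (1 : ℝ))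
  simpa using h

lemma sum_wt_mem (τ : ℝ) (v : V) : ∑ S : Finset V, (if v ∈ S then wt τ S else 0) = τ := by
  have h := sum_prod (fun _ : V => τ) (fun u => if u = v then 0 else 1 - τ)
  have h1 : ∏ u : V, (τ + if u = v then 0 else 1 - τ) = τ := by
    rw [← mul_prod_erase univ _ (mem_univ v), if_pos rfl, add_zero]
    rw [prod_congr rfl (g := fun _ => (1 : ℝ)), prod_const_one, mul_one]
    intro u hu
    rw [if_neg (ne_of_mem_erase hu)]
    ring
  rw [h1] at h
  refine Eq.trans (sum_congr rfl fun S _ => ?_) h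
  by_cases hv : v ∈ S
  · rw [if_pos hv, wt]
    congr 1
    refine prod_congr rfl fun u hu => ?_
    rw [if_neg]
    rintro rfl
    exact (mem_sdiff.1 hu).2 hv
  · have h2 : ∏ u ∈ univ \ S, (if u = v then 0 else 1 - τ) = 0 :=
      prod_eq_zero (i := v) (by simp [hv]) (if_pos rfl)
    rw [if_neg hv, h2, mul_zero]

lemma sum_wt_card (τ : ℝ) : ∑ S : Finset V, wt τ S * S.card = τ * Fintype.card V := by
  have h1 : ∀ S : Finset V, wt τ S * S.card = ∑ v : V, if v ∈ S then wt τ S else 0 := by
    intro S
    rw [sum_ite_mem, univ_inter, sum_const, nsmul_eq_mul, mul_comm]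
  simp only [h1]
  rw [sum_comm]
  simp only [sum_wt_mem]
  rw [sum_const, card_univ, nsmul_eq_mul, mul_comm]

open Classical in
/-- neighbours on the same side. -/
noncomputable def sam (H : SimpleGraph V) (U : Finset V) (v : V) : Finset V :=
  univ.filter fun u => H.Adj v u ∧ (u ∈ U ↔ v ∈ U)

open Classical in
/-- neighbours on the other side. -/
noncomputable def opp (H : SimpleGraph V) (U : Finset V) (v : V) : Finset V :=
  univ.filter fun u => H.Adj v u ∧ ¬ (u ∈ U ↔ v ∈ U)

lemma sam_add_opp (H : SimpleGraph V) (U : Finset V) (v : V) :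
    (sam H U v).card + (opp H U v).card = dgc H v := by
  classical
  unfold sam opp dgc
  rw [← filter_filter, ← filter_filter, card_filter_add_card_filter_not]

lemma sum_opp (H : SimpleGraph V) (U : Finset V) : ∑ v, (opp H U v).card = 2 * dX H U := by
  classical
  have h1 : ∑ v, (opp H U v).card = dX H U + dX H Uᶜ := by
    rw [dX_eq_sum, dX_eq_sum, ← sum_add_distrib, Fintype.sum_prod_type]
    refine sum_congr rfl fun v _ => ?_
    unfold opp
    rw [card_filter]
    refine sum_congr rfl fun u _ => ?_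
    simp only [mem_compl]
    by_cases h : H.Adj v u <;> by_cases h1 : v ∈ U <;> by_cases h2 : u ∈ U <;> simp [h, h1, h2]
  rw [h1, dX_compl]
  ring

/-- number of vertices with many neighbours on the other side -/
lemma card_bad (H : SimpleGraph V) (U : Finset V) {k : ℕ} (hk : 1 ≤ k) (hdeg : ∀ v, k ≤ dgc H v)
    {E0 : ℝ} (hU : (dX H U : ℝ) ≤ E0) :
    ((univ.filter fun v => dgc H v < 4 * (opp H U v).card).card : ℝ) ≤ 8 * E0 / k := by
  have hk' : (0 : ℝ) < k := by exact_mod_cast hk
  rw [le_div_iff₀ hk']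
  have h1 : (univ.filter fun v => dgc H v < 4 * (opp H U v).card).card * k ≤ 8 * dX H U := by
    calc (univ.filter fun v => dgc H v < 4 * (opp H U v).card).card * k
        = ∑ v ∈ univ.filter (fun v => dgc H v < 4 * (opp H U v).card), k := by
          rw [sum_const, smul_eq_mul]
      _ ≤ ∑ v ∈ univ.filter (fun v => dgc H v < 4 * (opp H U v).card), 4 * (opp H U v).card := by
          refine sum_le_sum fun v hv => ?_
          rw [mem_filter] at hv
          have := hdeg v
          omega
      _ ≤ ∑ v, 4 * (opp H U v).card :=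
          sum_le_sum_of_subset_of_nonneg (subset_univ _) fun _ _ _ => Nat.zero_le _
      _ = 8 * dX H U := by
          rw [← mul_sum, sum_opp]
          ring
  have h2 : (((univ.filter fun v => dgc H v < 4 * (opp H U v).card).card : ℕ) : ℝ) * k ≤
      8 * (dX H U : ℝ) := by exact_mod_cast h1
  linarith

/-- `v` fails for the sample `S` -/
def Fl (H : SimpleGraph V) (U S : Finset V) (v : V) : Prop :=
  (S ∩ sam H U v).card ≤ (S ∩ opp H U v).card

lemma disj (H : SimpleGraph V) (U : Finset V) (v : V) : Disjoint (sam H U v) (opp H U v) := by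
  classical
  rw [disjoint_left]
  intro u h1 h2
  unfold sam at h1
  unfold opp at h2
  rw [mem_filter] at h1 h2
  exact h2.2.2 h1.2.2

open Classical in
/-- a vertex with few neighbours on the other side fails with small probability -/
lemma prob_fail (H : SimpleGraph V) (U : Finset V) {k : ℕ} (hdeg : ∀ v, k ≤ dgc H v) (v : V)
    (hv : 4 * (opp H U v).card ≤ dgc H v) {τ : ℝ} (h0 : 0 < τ) (h1 : τ < 1) :
    ∑ S : Finset V, (if Fl H U S v then wt τ S else 0) ≤ Real.exp (-(τ * k / 8)) := by
  set θ : V → ℝ := fun u => (if u ∈ sam H U v then 1 / 2 else 1) *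
    (if u ∈ opp H U v then 2 else 1) with hθ
  have hprod : ∀ S : Finset V, ∏ u ∈ S, θ u =
      (1 / 2) ^ (S ∩ sam H U v).card * 2 ^ (S ∩ opp H U v).card := by
    intro S
    simp only [hθ]
    rw [prod_mul_distrib, prod_ite_mem, prod_const, prod_ite_mem, prod_const]
  have hle : ∀ S : Finset V, (if Fl H U S v then wt τ S else 0) ≤ wt τ S * ∏ u ∈ S, θ u := by
    intro S
    have hw := wt_pos h0 h1 S
    rw [hprod]
    by_cases hf : Fl H U S v
    · rw [if_pos hf]
      have h2 : (1 : ℝ) ≤ (1 / 2) ^ (S ∩ sam H U v).card * 2 ^ (S ∩ opp H U v).card := by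
        calc (1 : ℝ) = (1 / 2) ^ (S ∩ sam H U v).card * 2 ^ (S ∩ sam H U v).card := by
              rw [← mul_pow]
              norm_num
          _ ≤ _ := by
              have : (S ∩ sam H U v).card ≤ (S ∩ opp H U v).card := hf
              gcongr
              norm_num
      nlinarith
    · rw [if_neg hf]
      positivity
  calc ∑ S : Finset V, (if Fl H U S v then wt τ S else 0)
      ≤ ∑ S : Finset V, wt τ S * ∏ u ∈ S, θ u := sum_le_sum fun S _ => hle S
    _ = ∏ u, (τ * θ u + (1 - τ)) := sum_wt_theta τ θ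
    _ ≤ ∏ u, Real.exp ((if u ∈ sam H U v then -(τ / 2) else 0) +
          (if u ∈ opp H U v then τ else 0)) := by
        refine prod_le_prod (fun u _ => ?_) fun u _ => ?_
        · have : 0 ≤ θ u := by
            simp only [hθ]
            positivity
          have : 0 ≤ 1 - τ := by linarith
          positivity
        · simp only [hθ]
          by_cases h2 : u ∈ sam H U v
          · have h3 : u ∉ opp H U v := disjoint_left.1 (disj H U v) h2
            rw [if_pos h2, if_neg h3, if_pos h2, if_neg h3]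
            have := Real.add_one_le_exp (-(τ / 2) + 0)
            linarith
          · by_cases h3 : u ∈ opp H U v
            · rw [if_neg h2, if_pos h3, if_neg h2, if_pos h3]
              have := Real.add_one_le_exp (0 + τ)
              linarith
            · rw [if_neg h2, if_neg h3, if_neg h2, if_neg h3]
              have := Real.add_one_le_exp ((0 : ℝ) + 0)
              linarith
    _ = Real.exp ((sam H U v).card * (-(τ / 2)) + (opp H U v).card * τ) := by
        rw [← Real.exp_sum, sum_add_distrib, sum_ite_mem, sum_ite_mem, univ_inter, univ_inter,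
          sum_const, sum_const, nsmul_eq_mul, nsmul_eq_mul]
    _ ≤ Real.exp (-(τ * k / 8)) := by
        apply Real.exp_le_exp.2
        have h2 := sam_add_opp H U v
        have h3 : ((sam H U v).card : ℝ) + (opp H U v).card = dgc H v := by exact_mod_cast h2
        have h4 : (4 : ℝ) * (opp H U v).card ≤ dgc H v := by exact_mod_cast hv
        have h5 : (k : ℝ) ≤ dgc H v := by exact_mod_cast hdeg v
        have h6 : ((sam H U v).card : ℝ) = dgc H v - (opp H U v).card := by linarith
        rw [h6]
        nlinarith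

open Classical in
/-- a good sample exists -/
lemma exists_sample (H : SimpleGraph V) (U : Finset V) {k : ℕ} (hk : 2 ≤ k)
    (hdeg : ∀ v, k ≤ dgc H v)
    (hbig : 2 * Real.exp (-((1 / √(k : ℝ)) * k / 8)) ≤ 1 / √(k : ℝ)) [Nonempty V] :
    ∃ S : Finset V, (S.card : ℝ) ≤ 2 * (1 / √(k : ℝ)) * Fintype.card V ∧
      ((univ.filter fun v => 4 * (opp H U v).card ≤ dgc H v ∧ Fl H U S v).card : ℝ) ≤
        1 / √(k : ℝ) * Fintype.card V := by
  have hk' : (2 : ℝ) ≤ k := by exact_mod_cast hk
  have hsk : 1 < √(k : ℝ) := by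
    rw [Real.lt_sqrt (by norm_num)]
    linarith
  set τ : ℝ := 1 / √(k : ℝ) with hτ
  have h0 : 0 < τ := by positivity
  have h1 : τ < 1 := by
    rw [hτ, div_lt_one (by positivity)]
    exact hsk
  have hN : (0 : ℝ) < Fintype.card V := by exact_mod_cast Fintype.card_pos
  set f : Finset V → ℝ := fun S =>
    ((univ.filter fun v => 4 * (opp H U v).card ≤ dgc H v ∧ Fl H U S v).card : ℝ) with hf
  have hfsum : ∑ S : Finset V, wt τ S * f S ≤ Fintype.card V * Real.exp (-(τ * k / 8)) := by
    have h2 : ∀ S : Finset V, wt τ S * f S = ∑ v : V,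
        if 4 * (opp H U v).card ≤ dgc H v then (if Fl H U S v then wt τ S else 0) else 0 := by
      intro S
      simp only [hf]
      rw [card_filter]
      push_cast
      rw [mul_sum]
      refine sum_congr rfl fun v _ => ?_
      by_cases a1 : 4 * (opp H U v).card ≤ dgc H v <;> by_cases a2 : Fl H U S v <;> simp [a1, a2]
    simp only [h2]
    rw [sum_comm]
    calc ∑ v : V, ∑ S : Finset V,
        (if 4 * (opp H U v).card ≤ dgc H v then (if Fl H U S v then wt τ S else 0) else 0)
        ≤ ∑ v : V, Real.exp (-(τ * k / 8)) := by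
          refine sum_le_sum fun v _ => ?_
          by_cases a1 : 4 * (opp H U v).card ≤ dgc H v
          · simp only [if_pos a1]
            exact prob_fail H U hdeg v a1 h0 h1
          · simp only [if_neg a1, sum_const_zero]
            positivity
      _ = _ := by rw [sum_const, card_univ, nsmul_eq_mul]
  have htot : ∑ S : Finset V, wt τ S * (S.card / (2 * τ * Fintype.card V) +
      f S / (τ * Fintype.card V)) ≤ ∑ S : Finset V, wt τ S := by
    rw [sum_wt]
    have h3 : ∑ S : Finset V, wt τ S * (S.card / (2 * τ * Fintype.card V) +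
        f S / (τ * Fintype.card V)) = (∑ S : Finset V, wt τ S * S.card) /
        (2 * τ * Fintype.card V) + (∑ S : Finset V, wt τ S * f S) / (τ * Fintype.card V) := by
      rw [sum_div, sum_div, ← sum_add_distrib]
      refine sum_congr rfl fun S _ => ?_
      ring
    rw [h3, sum_wt_card]
    have h4 : τ * Fintype.card V / (2 * τ * Fintype.card V) = 1 / 2 := by field_simp
    have h5 : (∑ S : Finset V, wt τ S * f S) / (τ * Fintype.card V) ≤ 1 / 2 := by
      rw [div_le_iff₀ (by positivity)]
      nlinarith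
    rw [h4]
    linarith
  obtain ⟨S, -, hS⟩ := exists_le_of_sum_le (univ_nonempty) htot
  have hw := wt_pos h0 h1 S
  have hS' : S.card / (2 * τ * Fintype.card V) + f S / (τ * Fintype.card V) ≤ 1 := by
    by_contra hcon
    rw [not_le] at hcon
    nlinarith
  have p1 : 0 ≤ (S.card : ℝ) / (2 * τ * Fintype.card V) := by positivity
  have p2 : 0 ≤ f S / (τ * Fintype.card V) := by
    simp only [hf]
    positivity
  refine ⟨S, ?_, ?_⟩
  · have : (S.card : ℝ) / (2 * τ * Fintype.card V) ≤ 1 := by linarith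
    rw [div_le_one (by positivity)] at this
    exact this
  · have : f S / (τ * Fintype.card V) ≤ 1 := by linarith
    rw [div_le_one (by positivity)] at this
    exact this

/-- pairs `P ⊆ X` with `|X| ≤ a` -/
noncomputable def prs (a : ℝ) : Finset (Finset V × Finset V) := by
  classical
  exact univ.filter fun p => p.2 ⊆ p.1 ∧ (p.1.card : ℝ) ≤ a

lemma card_prs (a L : ℝ) (hL : 0 ≤ L) :
    ((prs (V := V) a).card : ℝ) ≤ Real.exp (a * L) * (1 + 2 * Real.exp (-L)) ^ Fintype.card V := by
  classical
  have h1 : ((prs (V := V) a).card : ℝ) = ∑ X : Finset V, ∑ P : Finset V,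
      if P ⊆ X ∧ (X.card : ℝ) ≤ a then (1 : ℝ) else 0 := by
    unfold prs
    rw [card_filter, Fintype.sum_prod_type]
    push_cast
    rfl
  have h2 : ∀ X : Finset V, ∑ P : Finset V, (if P ⊆ X ∧ (X.card : ℝ) ≤ a then (1 : ℝ) else 0) ≤
      Real.exp (a * L) * ∏ v ∈ X, (2 * Real.exp (-L)) := by
    intro X
    rw [prod_const, mul_pow, ← Real.exp_nat_mul]
    by_cases hX : (X.card : ℝ) ≤ a
    · have h3 : ∑ P : Finset V, (if P ⊆ X ∧ (X.card : ℝ) ≤ a then (1 : ℝ) else 0) =
          2 ^ X.card := by
        simp only [hX, and_true]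
        rw [sum_boole]
        have : (univ.filter fun P : Finset V => P ⊆ X) = X.powerset := by
          ext P
          simp
        rw [this, card_powerset]
        push_cast
        rfl
      rw [h3]
      have h4 : (1 : ℝ) ≤ Real.exp (a * L) * Real.exp (X.card * -L) := by
        rw [← Real.exp_add]
        apply Real.one_le_exp
        nlinarith
      have h5 : (0 : ℝ) < 2 ^ X.card := by positivity
      nlinarith
    · rw [sum_eq_zero fun P _ => if_neg fun h => hX h.2]
      positivity
  rw [h1]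
  calc ∑ X : Finset V, ∑ P : Finset V, (if P ⊆ X ∧ (X.card : ℝ) ≤ a then (1 : ℝ) else 0)
      ≤ ∑ X : Finset V, Real.exp (a * L) * ∏ v ∈ X, (2 * Real.exp (-L)) :=
        sum_le_sum fun X _ => h2 X
    _ = Real.exp (a * L) * ∑ X : Finset V,
          (∏ v ∈ X, (2 * Real.exp (-L))) * ∏ v ∈ univ \ X, (1 : ℝ) := by
        rw [mul_sum]
        simp
    _ = _ := by
        rw [sum_prod, prod_const, card_univ]
        ring_nf

/-- what a code determines -/
lemma code_inj (H : SimpleGraph V) {U U' S X : Finset V} (h1 : U ∩ S = U' ∩ S)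
    (h2 : U ∩ X = U' ∩ X) (hU : ∀ v, v ∉ X → ¬ Fl H U S v) (hU' : ∀ v, v ∉ X → ¬ Fl H U' S v) :
    U ⊆ U' := by
  classical
  intro v hv
  by_cases hX : v ∈ X
  · have : v ∈ U ∩ X := mem_inter.2 ⟨hv, hX⟩
    rw [h2] at this
    exact (mem_inter.1 this).1
  · by_contra hv'
    have a1 := hU v hX
    have a2 := hU' v hX
    have hmem : ∀ u, u ∈ S → (u ∈ U ↔ u ∈ U') := by
      intro u hu
      have h3 := Finset.ext_iff.1 h1 u
      rw [mem_inter, mem_inter] at h3
      tauto
    unfold Fl at a1 a2
    have e1 : S ∩ sam H U v = S ∩ opp H U' v := by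
      ext u
      unfold sam opp
      simp only [mem_inter, mem_filter, mem_univ, true_and]
      constructor
      · rintro ⟨b1, b2, b3⟩
        have := hmem u b1
        tauto
      · rintro ⟨b1, b2, b3⟩
        have := hmem u b1
        tauto
    have e2 : S ∩ opp H U v = S ∩ sam H U' v := by
      ext u
      unfold sam opp
      simp only [mem_inter, mem_filter, mem_univ, true_and]
      constructor
      · rintro ⟨b1, b2, b3⟩
        have := hmem u b1
        tauto
      · rintro ⟨b1, b2, b3⟩
        have := hmem u b1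
        tauto
    rw [e1, e2] at a1
    omega

end U1

open U1

theorem count_big {k : ℕ} (hk : 6400 ≤ k) :
    2 * Real.exp (-((1 / √(k : ℝ)) * k / 8)) ≤ 1 / √(k : ℝ) := by
  have hk' : (6400 : ℝ) ≤ k := by exact_mod_cast hk
  have hy : 80 ≤ √(k : ℝ) := by
    apply Real.le_sqrt_of_sq_le
    calc ((80 : ℝ)) ^ 2 = 6400 := by norm_num
      _ ≤ k := hk'
  set y : ℝ := √(k : ℝ) with hyd
  have hyy : (k : ℝ) = y * y := (Real.mul_self_sqrt (by linarith)).symm
  have hy0 : 0 < y := by linarith
  have e1 : 1 / y * k / 8 = y / 8 := by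
    rw [hyy]
    field_simp
  rw [e1, Real.exp_neg]
  have h1 := Real.pow_div_factorial_le_exp (y / 8) (by positivity) 3
  have h2 : 2 * y ≤ Real.exp (y / 8) := by
    refine le_trans ?_ h1
    have : ((Nat.factorial 3 : ℕ) : ℝ) = 6 := by norm_num [Nat.factorial]
    rw [this]
    nlinarith [mul_nonneg hy0.le hy0.le, mul_nonneg (mul_nonneg hy0.le (sub_nonneg.2 hy))
      (sub_nonneg.2 hy)]
  have h3 := Real.exp_pos (y / 8)
  rw [← div_eq_mul_inv, div_le_div_iff₀ h3 hy0]
  linarith

/-- part (a): every `U` with `dX H U ≤ E0` is determined by a pair `(X, P)`, `P ⊆ X`, with `X` small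
and a pair `(X', P')`, `P' ⊆ X'`, with `X'` small -/
theorem count_encode : ∃ k₀ : ℕ, ∀ k ≥ k₀, ∀ (V : Type) [Fintype V] [DecidableEq V]
    (H : SimpleGraph V), (∀ v, k ≤ dgc H v) → ∀ E0 : ℕ,
    ∃ code : Finset V → (Finset V × Finset V) × (Finset V × Finset V),
      (∀ U ∈ (univ : Finset (Finset V)).filter (fun U => dX H U ≤ E0),
        (code U).1.2 ⊆ (code U).1.1 ∧ (code U).2.2 ⊆ (code U).2.1 ∧
        ((code U).1.1.card : ℝ) ≤ 2 * Fintype.card V / Real.sqrt k ∧
        ((code U).2.1.card : ℝ) ≤ 8 * E0 / k + Fintype.card V / Real.sqrt k) ∧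
      Set.InjOn code ((univ : Finset (Finset V)).filter (fun U => dX H U ≤ E0) : Set (Finset V)) := by
  refine ⟨6400, fun k hk V _ _ H hdeg E0 => ?_⟩
  classical
  have hbig := count_big hk
  rcases isEmpty_or_nonempty V with hV | hV
  · refine ⟨fun _ => ((∅, ∅), (∅, ∅)), fun U _ => ⟨subset_rfl, subset_rfl, ?_, ?_⟩, ?_⟩
    · simp only [card_empty, Nat.cast_zero]
      positivity
    · simp only [card_empty, Nat.cast_zero]
      positivity
    · intro U _ U' _ _
      exact Subsingleton.elim _ _
  · have hcode : ∀ U : Finset V, ∃ c : (Finset V × Finset V) × (Finset V × Finset V),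
        dX H U ≤ E0 → (c.1.2 ⊆ c.1.1 ∧ c.2.2 ⊆ c.2.1 ∧
          (c.1.1.card : ℝ) ≤ 2 * Fintype.card V / Real.sqrt k ∧
          (c.2.1.card : ℝ) ≤ 8 * E0 / k + Fintype.card V / Real.sqrt k) ∧
          U ∩ c.1.1 = c.1.2 ∧ U ∩ c.2.1 = c.2.2 ∧ ∀ v, v ∉ c.2.1 → ¬ Fl H U c.1.1 v := by
      intro U
      by_cases hU : dX H U ≤ E0
      · obtain ⟨S, hS1, hS2⟩ := exists_sample H U (by omega : 2 ≤ k) hdeg hbig
        set X : Finset V := (univ.filter fun v => dgc H v < 4 * (opp H U v).card) ∪
          (univ.filter fun v => 4 * (opp H U v).card ≤ dgc H v ∧ Fl H U S v) with hX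
        refine ⟨((S, U ∩ S), (X, U ∩ X)), fun _ => ⟨⟨inter_subset_right, inter_subset_right,
          ?_, ?_⟩, rfl, rfl, ?_⟩⟩
        · calc (S.card : ℝ) ≤ 2 * (1 / √(k : ℝ)) * Fintype.card V := hS1
            _ = 2 * Fintype.card V / Real.sqrt k := by ring
        · have h3 := card_union_le (univ.filter fun v => dgc H v < 4 * (opp H U v).card)
            (univ.filter fun v => 4 * (opp H U v).card ≤ dgc H v ∧ Fl H U S v)
          have hU' : (dX H U : ℝ) ≤ (E0 : ℝ) := by exact_mod_cast hU
          have h4 := card_bad H U (by omega : 1 ≤ k) hdeg hU'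
          have h5 : (X.card : ℝ) ≤ ((univ.filter fun v => dgc H v < 4 * (opp H U v).card).card : ℝ)
              + ((univ.filter fun v => 4 * (opp H U v).card ≤ dgc H v ∧ Fl H U S v).card : ℝ) := by
            exact_mod_cast h3
          have h6 : 1 / √(k : ℝ) * (Fintype.card V : ℝ) = Fintype.card V / Real.sqrt k := by ring
          rw [h6] at hS2
          simp only
          linarith
        · intro v hv hf
          apply hv
          simp only [hX]
          rw [mem_union, mem_filter, mem_filter]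
          by_cases h6 : 4 * (opp H U v).card ≤ dgc H v
          · exact Or.inr ⟨mem_univ _, h6, hf⟩
          · exact Or.inl ⟨mem_univ _, by omega⟩
      · exact ⟨((∅, ∅), (∅, ∅)), fun h => absurd h hU⟩
    choose code hcode using hcode
    refine ⟨code, fun U hU => ?_, ?_⟩
    · rw [mem_filter] at hU
      exact (hcode U hU.2).1
    · intro U hU U' hU' heq
      rw [mem_coe, mem_filter] at hU hU'
      obtain ⟨-, b1, b2, b3⟩ := hcode U hU.2
      obtain ⟨-, c1, c2, c3⟩ := hcode U' hU'.2
      rw [heq] at b1 b2 b3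
      have d1 : U ∩ (code U').1.1 = U' ∩ (code U').1.1 := b1.trans c1.symm
      have d2 : U ∩ (code U').2.1 = U' ∩ (code U').2.1 := b2.trans c2.symm
      exact Subset.antisymm (code_inj H d1 d2 b3 c3) (code_inj H d1.symm d2.symm c3 b3)

/-- part (b): the number of pairs `P ⊆ X` with `X` small -/
theorem card_pairs (V : Type) [Fintype V] [DecidableEq V] (a t : ℝ) (ht : 0 < t) (ht1 : t ≤ 1) :
    (((univ : Finset (Finset V × Finset V)).filter
      fun q => q.2 ⊆ q.1 ∧ (q.1.card : ℝ) ≤ a).card : ℝ) ≤
      Real.exp (a * Real.log (1 / t) + 2 * t * Fintype.card V) := by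
  classical
  have hL : 0 ≤ Real.log (1 / t) := by
    apply Real.log_nonneg
    rw [le_div_iff₀ ht]
    linarith
  have h1 := card_prs (V := V) a (Real.log (1 / t)) hL
  have h2 : Real.exp (-Real.log (1 / t)) = t := by
    rw [one_div, Real.log_inv, neg_neg, Real.exp_log ht]
  have h3 : (1 + 2 * Real.exp (-Real.log (1 / t))) ^ Fintype.card V ≤
      Real.exp (2 * t * Fintype.card V) := by
    rw [h2]
    calc (1 + 2 * t) ^ Fintype.card V ≤ Real.exp (2 * t) ^ Fintype.card V := by
          have := Real.add_one_le_exp (2 * t)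
          gcongr
          linarith
      _ = Real.exp (2 * t * Fintype.card V) := by
          rw [← Real.exp_nat_mul]
          ring_nf
  have h4 : ((univ : Finset (Finset V × Finset V)).filter
      fun q => q.2 ⊆ q.1 ∧ (q.1.card : ℝ) ≤ a) = U1.prs (V := V) a := by
    ext q
    unfold U1.prs
    simp only [mem_filter]
  calc (((univ : Finset (Finset V × Finset V)).filter
      fun q => q.2 ⊆ q.1 ∧ (q.1.card : ℝ) ≤ a).card : ℝ)
      = ((U1.prs (V := V) a).card : ℝ) := by rw [h4]
    _ ≤ Real.exp (a * Real.log (1 / t)) * Real.exp (2 * t * Fintype.card V) :=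
        h1.trans (by gcongr)
    _ = _ := by rw [← Real.exp_add]

theorem count_cuts : ∃ k₀ : ℕ, ∀ k ≥ k₀, ∀ (V : Type) [Fintype V] [DecidableEq V]
    (H : SimpleGraph V), (∀ v, k ≤ dgc H v) → ∀ E0 : ℕ,
    (((univ : Finset (Finset V)).filter fun U => dX H U ≤ E0).card : ℝ) ≤
      Real.exp (4 * Real.log k * (Fintype.card V / Real.sqrt k + E0 / k)) := by
  obtain ⟨k₁, h₁⟩ := count_encode
  refine ⟨max k₁ 6400, fun k hk V _ _ H hdeg E0 => ?_⟩
  have hk1 : k₁ ≤ k := le_trans (le_max_left _ _) hk
  have hk2 : 6400 ≤ k := le_trans (le_max_right _ _) hk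
  have hk' : (6400 : ℝ) ≤ k := by exact_mod_cast hk2
  have hsk : 0 < √(k : ℝ) := Real.sqrt_pos.2 (by linarith)
  have hsk1 : 1 ≤ √(k : ℝ) := by
    apply Real.le_sqrt_of_sq_le
    norm_num
    linarith
  obtain ⟨code, hc, hinj⟩ := h₁ k hk1 V H hdeg E0
  have hlog : (8 / 5 : ℝ) ≤ Real.log k := by
    have h1 : Real.log 4 ≤ Real.log k := Real.log_le_log (by norm_num) (by linarith)
    have h2 : Real.log 4 = 2 * Real.log 2 := by
      rw [show (4 : ℝ) = 2 ^ 2 by norm_num, Real.log_pow]
      push_cast
      rfl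
    have h3 : Real.log 8 ≤ Real.log k := Real.log_le_log (by norm_num) (by linarith)
    have h4 : Real.log 8 = 3 * Real.log 2 := by
      rw [show (8 : ℝ) = 2 ^ 3 by norm_num, Real.log_pow]
      push_cast
      rfl
    have h5 := Real.log_two_gt_d9
    linarith
  set N : ℝ := (Fintype.card V : ℝ) with hN
  set a1 : ℝ := 2 * N / Real.sqrt k with ha1
  set a2 : ℝ := 8 * E0 / k + N / Real.sqrt k with ha2
  set t : ℝ := 1 / √(k : ℝ) with ht
  have ht0 : 0 < t := by positivity
  have ht1 : t ≤ 1 := by
    rw [ht, div_le_one hsk]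
    exact hsk1
  have hcard : ((univ : Finset (Finset V)).filter fun U => dX H U ≤ E0).card ≤
      (((univ : Finset (Finset V × Finset V)).filter
        fun q => q.2 ⊆ q.1 ∧ (q.1.card : ℝ) ≤ a1) ×ˢ
      ((univ : Finset (Finset V × Finset V)).filter
        fun q => q.2 ⊆ q.1 ∧ (q.1.card : ℝ) ≤ a2)).card := by
    refine card_le_card_of_injOn code (fun U hU => ?_) hinj
    obtain ⟨c1, c2, c3, c4⟩ := hc U hU
    rw [mem_coe, mem_product, mem_filter, mem_filter]
    exact ⟨⟨mem_univ _, c1, c3⟩, mem_univ _, c2, c4⟩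
  rw [card_product] at hcard
  have p1 := card_pairs V a1 t ht0 ht1
  have p2 := card_pairs V a2 t ht0 ht1
  have hLt : Real.log (1 / t) = Real.log k / 2 := by
    rw [ht, one_div_one_div, Real.log_sqrt (by linarith)]
  rw [hLt] at p1 p2
  calc (((univ : Finset (Finset V)).filter fun U => dX H U ≤ E0).card : ℝ)
      ≤ ((((univ : Finset (Finset V × Finset V)).filter
        fun q => q.2 ⊆ q.1 ∧ (q.1.card : ℝ) ≤ a1).card *
      ((univ : Finset (Finset V × Finset V)).filter
        fun q => q.2 ⊆ q.1 ∧ (q.1.card : ℝ) ≤ a2).card : ℕ) : ℝ) := by exact_mod_cast hcard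
    _ = (((univ : Finset (Finset V × Finset V)).filter
        fun q => q.2 ⊆ q.1 ∧ (q.1.card : ℝ) ≤ a1).card : ℝ) *
      (((univ : Finset (Finset V × Finset V)).filter
        fun q => q.2 ⊆ q.1 ∧ (q.1.card : ℝ) ≤ a2).card : ℝ) := by push_cast; rfl
    _ ≤ Real.exp (a1 * (Real.log k / 2) + 2 * t * N) *
        Real.exp (a2 * (Real.log k / 2) + 2 * t * N) := by gcongr
    _ = Real.exp (a1 * (Real.log k / 2) + 2 * t * N + (a2 * (Real.log k / 2) + 2 * t * N)) := by
        rw [← Real.exp_add]
    _ ≤ _ := by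
        apply Real.exp_le_exp.2
        have hN0 : 0 ≤ N / √(k : ℝ) := by positivity
        have e1 : a1 * (Real.log k / 2) + 2 * t * N + (a2 * (Real.log k / 2) + 2 * t * N) =
            3 / 2 * Real.log k * (N / √(k : ℝ)) + 4 * (N / √(k : ℝ)) +
              4 * Real.log k * (E0 / k) := by
          rw [ha1, ha2, ht]
          ring
        rw [e1]
        nlinarith

end Pool.Agent.Work.DelAsy
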