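import Pool.Agent.Work.MP_60abc6_co.EdgeB
import Pool.Agent.Work.MP_60abc6_co.DEL.Par

set_option autoImplicit false

/-! Common definitions for the asymptotic value of `e_λ(n; k, l)` (MP_60abc6_co).
From the library of the row: `dX G X` (edges leaving `X`), `dgc G v` (degree), `ec G` (number of edges),
`EC k G` (k-edge-connectivity in terms of cuts). -/

namespace Pool.Agent.Work.DelAsy

open Finset Pool.Agent.Work.MP_60abc6_co

export Pool.Agent.Work.MP_60abc6_co.DEL (E1 eA eps omg)

end Pool.Agent.Work.DelAsy
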