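import Pool.Agent.Work.DelAsy.Count

set_option autoImplicit false

/-! U1 (c): the count in the bipartite double cover. -/

namespace Pool.Agent.Work.DelAsy

open Finset Pool.Agent.Work.MP_60abc6_co

/-- the bipartite double cover -/
def dbl {V : Type} (G : SimpleGraph V) : SimpleGraph (V ⊕ V) where
  Adj x y := match x, y with
    | Sum.inl u, Sum.inr v => G.Adj u v
    | Sum.inr u, Sum.inl v => G.Adj u v
    | _, _ => False
  symm := ⟨by
    rintro (u | u) (v | v) h
    · exact h
    · exact SimpleGraph.Adj.symm (G := G) h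
    · exact SimpleGraph.Adj.symm (G := G) h
    · exact h⟩
  loopless := ⟨by rintro (u | u) h <;> exact h⟩

lemma dbl_deg {V : Type} [Fintype V] [DecidableEq V] (G : SimpleGraph V) (x : V ⊕ V) :
    dgc (dbl G) x = dgc G (Sum.elim id id x) := by
  classical
  rcases x with u | u
  · unfold dgc
    refine (card_bij (fun v _ => Sum.inr v) ?_ ?_ ?_).symm
    · intro v hv
      rw [mem_filter] at hv ⊢
      exact ⟨mem_univ _, hv.2⟩
    · intro v _ w _ h
      exact Sum.inr_injective h
    · rintro (v | v) hv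
      · rw [mem_filter] at hv
        exact absurd hv.2 (fun h => h)
      · rw [mem_filter] at hv
        exact ⟨v, mem_filter.2 ⟨mem_univ _, hv.2⟩, rfl⟩
  · unfold dgc
    refine (card_bij (fun v _ => Sum.inl v) ?_ ?_ ?_).symm
    · intro v hv
      rw [mem_filter] at hv ⊢
      exact ⟨mem_univ _, hv.2⟩
    · intro v _ w _ h
      exact Sum.inl_injective h
    · rintro (v | v) hv
      · rw [mem_filter] at hv
        exact ⟨v, mem_filter.2 ⟨mem_univ _, hv.2⟩, rfl⟩
      · rw [mem_filter] at hv
        exact absurd hv.2 (fun h => h)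

lemma dbl_dX {V : Type} [Fintype V] [DecidableEq V] (G : SimpleGraph V) (A B : Finset V) :
    dX (dbl G) (A.disjSum B) = E1 G A B + E1 G B A := by
  classical
  rw [dX_eq_sum, Fintype.sum_prod_type]
  simp only [Fintype.sum_sum_type, inl_mem_disjSum, inr_mem_disjSum]
  have h1 : ∀ u v : V, (dbl G).Adj (Sum.inl u) (Sum.inl v) ↔ False := fun u v => Iff.rfl
  have h2 : ∀ u v : V, (dbl G).Adj (Sum.inr u) (Sum.inr v) ↔ False := fun u v => Iff.rfl
  have h3 : ∀ u v : V, (dbl G).Adj (Sum.inl u) (Sum.inr v) ↔ G.Adj u v := fun u v => Iff.rfl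
  have h4 : ∀ u v : V, (dbl G).Adj (Sum.inr u) (Sum.inl v) ↔ G.Adj u v := fun u v => Iff.rfl
  simp only [h1, h2, h3, h4, false_and, if_false, sum_const_zero, zero_add, add_zero]
  unfold E1
  rw [card_filter, card_filter, Fintype.sum_prod_type, Fintype.sum_prod_type]
  refine congrArg₂ (· + ·) ?_ ?_
  · exact sum_congr rfl fun u _ => sum_congr rfl fun v _ => by congr!
  · exact sum_congr rfl fun u _ => sum_congr rfl fun v _ => by congr!

theorem count_pairs : ∃ k₀ : ℕ, ∀ k ≥ k₀, ∀ (V : Type) [Fintype V] [DecidableEq V]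
    (G : SimpleGraph V), (∀ v, k ≤ dgc G v) → ∀ E0 : ℕ,
    (((univ : Finset (Finset V × Finset V)).filter
      fun q => E1 G q.1 q.2 + E1 G q.2 q.1 ≤ E0).card : ℝ) ≤
      Real.exp (4 * Real.log k * (2 * Fintype.card V / Real.sqrt k + E0 / k)) := by
  obtain ⟨k₀, h⟩ := count_cuts
  refine ⟨k₀, fun k hk V _ _ G hdeg E0 => ?_⟩
  have h1 := h k hk (V ⊕ V) (dbl G) (fun x => by
    rw [dbl_deg]
    exact hdeg _) E0
  have h2 : (Fintype.card (V ⊕ V) : ℝ) = 2 * Fintype.card V := by
    rw [Fintype.card_sum]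
    push_cast
    ring
  rw [h2] at h1
  refine le_trans ?_ h1
  have h3 : ((univ : Finset (Finset V × Finset V)).filter
      fun q => E1 G q.1 q.2 + E1 G q.2 q.1 ≤ E0).card ≤
      ((univ : Finset (Finset (V ⊕ V))).filter fun U => dX (dbl G) U ≤ E0).card := by
    refine card_le_card_of_injOn (fun q => q.1.disjSum q.2) (fun q hq => ?_) ?_
    · rw [mem_coe, mem_filter] at hq ⊢
      refine ⟨mem_univ _, ?_⟩
      rw [dbl_dX]
      exact hq.2
    · intro q _ q' _ heq
      simp only at heq
      refine Prod.ext ?_ ?_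
      · ext v
        have := Finset.ext_iff.1 heq (Sum.inl v)
        simpa only [inl_mem_disjSum] using this
      · ext v
        have := Finset.ext_iff.1 heq (Sum.inr v)
        simpa only [inr_mem_disjSum] using this
  exact_mod_cast h3

end Pool.Agent.Work.DelAsy
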