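import Mathlib

set_option autoImplicit false

/-! U2: a finite product probability space and Chernoff's bound. -/

namespace Pool.Agent.Work.DelAsy

open Finset

variable {I Ω : Type} [Fintype I] [DecidableEq I] [Fintype Ω] [DecidableEq Ω]

open Classical in
/-- the probability of the event `E` when the coordinates are independent with weights `w` -/
noncomputable def pr (w : Ω → ℝ) (E : (I → Ω) → Prop) : ℝ :=
  ∑ ω : I → Ω, if E ω then ∏ i, w (ω i) else 0

theorem pr_mono (w : Ω → ℝ) (hw : ∀ o, 0 ≤ w o) {E E' : (I → Ω) → Prop} (h : ∀ ω, E ω → E' ω) :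
    pr w E ≤ pr w E' := by
  classical
  unfold pr
  refine sum_le_sum fun ω _ => ?_
  have h0 : 0 ≤ ∏ i, w (ω i) := prod_nonneg fun i _ => hw _
  by_cases h1 : E ω
  · rw [if_pos h1, if_pos (h ω h1)]
  · rw [if_neg h1]
    split_ifs
    · exact h0
    · exact le_rfl

theorem pr_or_le (w : Ω → ℝ) (hw : ∀ o, 0 ≤ w o) (E E' : (I → Ω) → Prop) :
    pr w (fun ω => E ω ∨ E' ω) ≤ pr w E + pr w E' := by
  classical
  unfold pr
  rw [← sum_add_distrib]
  refine sum_le_sum fun ω _ => ?_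
  have h0 : 0 ≤ ∏ i, w (ω i) := prod_nonneg fun i _ => hw _
  by_cases h1 : E ω <;> by_cases h2 : E' ω <;> simp [h1, h2, h0]

theorem pr_exists_le {J : Type} (w : Ω → ℝ) (hw : ∀ o, 0 ≤ w o) (S : Finset J)
    (E : J → (I → Ω) → Prop) :
    pr w (fun ω => ∃ j ∈ S, E j ω) ≤ ∑ j ∈ S, pr w (E j) := by
  classical
  unfold pr
  rw [sum_comm]
  refine sum_le_sum fun ω _ => ?_
  have h0 : 0 ≤ ∏ i, w (ω i) := prod_nonneg fun i _ => hw _
  have h1 : ∀ j ∈ S, (0 : ℝ) ≤ if E j ω then ∏ i, w (ω i) else 0 := fun j _ => by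
    split_ifs
    · exact h0
    · exact le_rfl
  by_cases h : ∃ j ∈ S, E j ω
  · rw [if_pos h]
    obtain ⟨j, hj, hE⟩ := h
    have h2 := single_le_sum h1 hj
    rwa [if_pos hE] at h2
  · rw [if_neg h]
    exact sum_nonneg h1

theorem pr_total (w : Ω → ℝ) (hw1 : ∑ o, w o = 1) (f : I → Ω → ℝ) :
    ∑ ω : I → Ω, ∏ i, (w (ω i) * f i (ω i)) = ∏ i, ∑ o, w o * f i o := by
  classical
  rw [prod_univ_sum, Fintype.piFinset_univ]

theorem exists_of_pr_lt_one (w : Ω → ℝ) (hw : ∀ o, 0 ≤ w o) (hw1 : ∑ o, w o = 1)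
    (E : (I → Ω) → Prop) (h : pr w E < 1) : ∃ ω, ¬ E ω := by
  classical
  by_contra hcon
  push Not at hcon
  have h1 : pr w E = 1 := by
    unfold pr
    have h2 := pr_total (I := I) w hw1 (fun _ _ => 1)
    simp only [mul_one, hw1, prod_const_one] at h2
    rw [← h2]
    exact sum_congr rfl fun ω _ => if_pos (hcon ω)
  linarith

theorem prob_exp_neg_le {s : ℝ} (hs : 0 ≤ s) : Real.exp (-s) ≤ 1 - s + s ^ 2 / 2 := by
  have h1 := Real.quadratic_le_exp_of_nonneg hs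
  have h2 : 0 < 1 + s + s ^ 2 / 2 := by positivity
  rw [Real.exp_neg]
  have h3 : (Real.exp s)⁻¹ ≤ (1 + s + s ^ 2 / 2)⁻¹ := inv_anti₀ h2 h1
  refine h3.trans ?_
  rw [inv_le_iff_one_le_mul₀ h2]
  nlinarith [sq_nonneg (s ^ 2)]

theorem chernoff (w : Ω → ℝ) (hw : ∀ o, 0 ≤ w o) (hw1 : ∑ o, w o = 1) (Y : I → Ω → ℝ)
    (hY : ∀ i o, Y i o = 0 ∨ Y i o = 1) (s t : ℝ) (hs : 0 ≤ s) :
    pr w (fun ω => ∑ i, Y i (ω i) ≤ t) ≤
      Real.exp (s * t - s * (∑ i, ∑ o, w o * Y i o) + s ^ 2 / 2 * ∑ i, ∑ o, w o * Y i o) := by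
  classical
  have h1 : pr w (fun ω => ∑ i, Y i (ω i) ≤ t) ≤
      ∑ ω : I → Ω, Real.exp (s * t) * ∏ i, (w (ω i) * Real.exp (-s * Y i (ω i))) := by
    unfold pr
    refine sum_le_sum fun ω _ => ?_
    have h0 : 0 ≤ ∏ i, w (ω i) := prod_nonneg fun i _ => hw _
    have h2 : Real.exp (s * t) * ∏ i, (w (ω i) * Real.exp (-s * Y i (ω i))) =
        Real.exp (s * (t - ∑ i, Y i (ω i))) * ∏ i, w (ω i) := by
      rw [prod_mul_distrib, ← Real.exp_sum, ← mul_sum]
      rw [show Real.exp (s * (t - ∑ i, Y i (ω i))) = Real.exp (s * t) *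
        Real.exp (-s * ∑ i, Y i (ω i)) by rw [← Real.exp_add]; congr 1; ring]
      ring
    rw [h2]
    split_ifs with h
    · have h3 : 1 ≤ Real.exp (s * (t - ∑ i, Y i (ω i))) :=
        Real.one_le_exp (mul_nonneg hs (by linarith))
      exact le_mul_of_one_le_left h0 h3
    · exact mul_nonneg (Real.exp_pos _).le h0
  refine h1.trans ?_
  rw [← mul_sum, pr_total w hw1 (fun i o => Real.exp (-s * Y i o))]
  have h2 : ∀ i : I, ∑ o, w o * Real.exp (-s * Y i o) ≤
      Real.exp (-(∑ o, w o * Y i o) * (s - s ^ 2 / 2)) := by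
    intro i
    have h3 : ∀ o, w o * Real.exp (-s * Y i o) = w o - w o * Y i o * (1 - Real.exp (-s)) := by
      intro o
      rcases hY i o with h | h
      · rw [h]
        simp
      · rw [h]
        simp only [mul_one]
        ring
    simp only [h3]
    rw [sum_sub_distrib, hw1, ← sum_mul]
    have h4 : 0 ≤ ∑ o, w o * Y i o := by
      refine sum_nonneg fun o _ => ?_
      rcases hY i o with h | h
      · rw [h, mul_zero]
      · rw [h, mul_one]
        exact hw o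
    have h5 := prob_exp_neg_le hs
    have h6 := Real.add_one_le_exp (-(∑ o, w o * Y i o) * (s - s ^ 2 / 2))
    nlinarith
  have h3 : ∏ i, ∑ o, w o * Real.exp (-s * Y i o) ≤
      ∏ i, Real.exp (-(∑ o, w o * Y i o) * (s - s ^ 2 / 2)) :=
    prod_le_prod (fun i _ => sum_nonneg fun o _ => mul_nonneg (hw o) (Real.exp_pos _).le)
      (fun i _ => h2 i)
  refine (mul_le_mul_of_nonneg_left h3 (Real.exp_pos _).le).trans (le_of_eq ?_)
  rw [← Real.exp_sum, ← Real.exp_add, ← sum_mul, sum_neg_distrib]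
  congr 1
  ring

end Pool.Agent.Work.DelAsy
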