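import Pool.Agent.Work.DelAsy.Defs

set_option autoImplicit false

/-! U6: a balanced random set. -/

namespace Pool.Agent.Work.DelAsy

open Finset Pool.Agent.Work.MP_60abc6_co

open Classical in
/-- the vertices with too few neighbours outside `P` -/
noncomputable def Bad {V : Type*} [Fintype V] (G : SimpleGraph V) (P : Finset V) (δ : ℝ) :
    Finset V :=
  univ.filter fun v => ((univ.filter fun w => G.Adj v w ∧ w ∉ P).card : ℝ) < (1 / 2 - δ) * dgc G v

section signs

variable {V : Type*} [Fintype V] [DecidableEq V]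

/-- sign of a Boolean -/
def signs_sg (b : Bool) : ℝ := if b then 1 else -1

lemma signs_sg_sq (b : Bool) : signs_sg b * signs_sg b = 1 := by
  cases b <;> simp [signs_sg]

lemma signs_sg_not (b : Bool) : signs_sg (!b) = -signs_sg b := by
  cases b <;> simp [signs_sg]

lemma signs_cross {u w : V} (h : u ≠ w) :
    ∑ σ : V → Bool, signs_sg (σ u) * signs_sg (σ w) = 0 := by
  have hinv : Function.Involutive (fun σ : V → Bool => Function.update σ u (!σ u)) := by
    intro σ
    funext v
    by_cases hv : v = u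
    · subst hv; simp
    · simp [Function.update_of_ne hv]
  have h1 := Equiv.sum_comp (hinv.toPerm _)
    (fun σ : V → Bool => signs_sg (σ u) * signs_sg (σ w))
  have h2 : ∀ σ : V → Bool, signs_sg ((hinv.toPerm _) σ u) * signs_sg ((hinv.toPerm _) σ w) =
      -(signs_sg (σ u) * signs_sg (σ w)) := by
    intro σ
    rw [Function.Involutive.coe_toPerm, Function.update_self, Function.update_of_ne h.symm,
      signs_sg_not]
    ring
  rw [Finset.sum_congr rfl (fun σ _ => h2 σ), sum_neg_distrib] at h1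
  linarith

/-- second moment -/
lemma signs_moment (A : Finset V) :
    ∑ σ : V → Bool, (∑ u ∈ A, signs_sg (σ u)) ^ 2 = (2 : ℝ) ^ Fintype.card V * A.card := by
  have h1 : ∀ σ : V → Bool, (∑ u ∈ A, signs_sg (σ u)) ^ 2 =
      ∑ u ∈ A, ∑ w ∈ A, signs_sg (σ u) * signs_sg (σ w) := by
    intro σ
    rw [sq, sum_mul_sum]
  simp only [h1]
  rw [sum_comm]
  have h2 : ∀ u ∈ A, ∑ σ : V → Bool, ∑ w ∈ A, signs_sg (σ u) * signs_sg (σ w) =
      (2 : ℝ) ^ Fintype.card V := by
    intro u hu
    rw [sum_comm, sum_eq_single u]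
    · simp [signs_sg_sq]
    · intro w _ hw
      exact signs_cross hw.symm
    · intro h
      exact absurd hu h
  rw [sum_congr rfl h2, sum_const, nsmul_eq_mul, mul_comm]

omit [Fintype V] [DecidableEq V] in
lemma signs_card_false (A : Finset V) (σ : V → Bool) :
    ((A.filter fun u => σ u = false).card : ℝ) = (A.card - ∑ u ∈ A, signs_sg (σ u)) / 2 := by
  have h1 : ∀ u, (if σ u = false then (1 : ℝ) else 0) = (1 - signs_sg (σ u)) / 2 := by
    intro u
    cases σ u <;> simp [signs_sg]
  rw [card_filter]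
  push_cast
  simp only [h1]
  rw [← sum_div, sum_sub_distrib]
  simp

end signs

theorem signs {V : Type*} [Fintype V] [DecidableEq V] (G : SimpleGraph V) (δ : ℝ) (hδ : 0 < δ)
    (hdeg : ∀ v, 1 ≤ dgc G v) :
    ∃ P : Finset V, (Fintype.card V : ℝ) / 2 - Real.sqrt (Fintype.card V) ≤ P.card ∧
      (∑ v ∈ Bad G P δ, dgc G v : ℝ) ≤ Fintype.card V / δ ^ 2 := by
  classical
  set n := Fintype.card V with hndef
  rcases Nat.eq_zero_or_pos n with hn | hn
  · refine ⟨∅, ?_, ?_⟩
    · rw [hn]; simp
    · have : IsEmpty V := Fintype.card_eq_zero_iff.1 hn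
      rw [sum_of_isEmpty]
      positivity
  have hnR : (0 : ℝ) < n := by exact_mod_cast hn
  let N : V → Finset V := fun v => univ.filter (G.Adj v)
  have hN : ∀ v, (N v).card = dgc G v := fun v => by
    simp only [N, dgc]
  let bad : (V → Bool) → V → Prop := fun σ v =>
    2 * δ * dgc G v < ∑ u ∈ N v, signs_sg (σ u)
  let w : (V → Bool) → ℝ := fun σ => ∑ v ∈ univ.filter (bad σ), (dgc G v : ℝ)
  let t : (V → Bool) → ℝ := fun σ => (∑ v, signs_sg (σ v)) ^ 2
  have ht : ∑ σ, t σ = (2 : ℝ) ^ n * n := by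
    have := signs_moment (univ : Finset V)
    rwa [card_univ] at this
  have hbad : ∀ v, ∑ σ : V → Bool, (if bad σ v then (dgc G v : ℝ) else 0) ≤
      (2 : ℝ) ^ n * (1 / (4 * δ ^ 2)) := by
    intro v
    have hdR : (0 : ℝ) < dgc G v := by exact_mod_cast hdeg v
    have h3 : ∀ σ : V → Bool, (if bad σ v then (dgc G v : ℝ) else 0) ≤
        (∑ u ∈ N v, signs_sg (σ u)) ^ 2 / (4 * δ ^ 2 * dgc G v) := by
      intro σ
      split_ifs with hb
      · rw [le_div_iff₀ (by positivity)]
        have h4 : (2 * δ * dgc G v) ^ 2 ≤ (∑ u ∈ N v, signs_sg (σ u)) ^ 2 :=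
          pow_le_pow_left₀ (by positivity) (le_of_lt hb) 2
        nlinarith
      · positivity
    refine (sum_le_sum fun σ _ => h3 σ).trans (le_of_eq ?_)
    rw [← sum_div, signs_moment, hN, ← hndef]
    field_simp
  have hw : ∑ σ, w σ ≤ n * ((2 : ℝ) ^ n * (1 / (4 * δ ^ 2))) := by
    have h3 : ∀ σ, w σ = ∑ v, if bad σ v then (dgc G v : ℝ) else 0 := fun σ => by
      simp only [w]
      rw [sum_filter]
    simp only [h3]
    rw [sum_comm]
    refine (sum_le_sum fun v _ => hbad v).trans (le_of_eq ?_)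
    rw [sum_const, card_univ, nsmul_eq_mul]
  have hex : ∃ σ : V → Bool, t σ / (4 * n) + w σ / (n / δ ^ 2) ≤ 1 := by
    by_contra hcon
    push Not at hcon
    have h4 : ∑ σ : V → Bool, (1 : ℝ) < ∑ σ : V → Bool, (t σ / (4 * n) + w σ / (n / δ ^ 2)) :=
      sum_lt_sum_of_nonempty univ_nonempty fun σ _ => hcon σ
    have h5 : ∑ σ : V → Bool, (1 : ℝ) = (2 : ℝ) ^ n := by simp [hndef]
    rw [h5, sum_add_distrib, ← sum_div, ← sum_div, ht] at h4
    have h6 : (∑ σ, w σ) / (n / δ ^ 2) ≤ n * ((2 : ℝ) ^ n * (1 / (4 * δ ^ 2))) / (n / δ ^ 2) := by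
      gcongr
    have h7 : (2 : ℝ) ^ n * n / (4 * n) + n * ((2 : ℝ) ^ n * (1 / (4 * δ ^ 2))) / (n / δ ^ 2) =
        (2 : ℝ) ^ n * (1 / 2) := by
      field_simp
      norm_num
    have h8 : (0 : ℝ) < (2 : ℝ) ^ n := by positivity
    linarith
  obtain ⟨σ, hσ⟩ := hex
  have ht0 : 0 ≤ t σ / (4 * n) := by positivity
  have hw0' : 0 ≤ w σ := sum_nonneg fun _ _ => by positivity
  have hw0 : 0 ≤ w σ / (n / δ ^ 2) := by positivity
  refine ⟨univ.filter fun v => σ v = true, ?_, ?_⟩
  · have h9 := signs_card_false (univ : Finset V) σ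
    rw [card_univ, ← hndef] at h9
    have h10 : ((univ.filter fun v => σ v = true).card : ℝ) +
        ((univ.filter fun v => σ v = false).card : ℝ) = n := by
      have h11 : (univ.filter fun v => σ v = false) = univ.filter fun v => ¬ (σ v = true) := by
        ext v; simp
      rw [h11]
      have h15 := card_filter_add_card_filter_not (s := (univ : Finset V)) (fun v => σ v = true)
      rw [card_univ] at h15
      exact_mod_cast h15
    have h12 : |∑ v, signs_sg (σ v)| ≤ 2 * Real.sqrt n := by
      refine abs_le_of_sq_le_sq ?_ (by positivity)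
      rw [mul_pow, Real.sq_sqrt hnR.le]
      have h13 : t σ / (4 * n) ≤ 1 := by linarith
      rw [div_le_one (by positivity)] at h13
      simp only [t] at h13
      linarith
    have h14 := (abs_le.1 h12).1
    linarith
  · have h11 : w σ / (n / δ ^ 2) ≤ 1 := by linarith
    rw [div_le_one (by positivity)] at h11
    refine le_trans (sum_le_sum_of_subset_of_nonneg ?_ fun _ _ _ => by positivity) h11
    intro v hv
    unfold Bad at hv
    rw [mem_filter] at hv ⊢
    refine ⟨mem_univ _, ?_⟩
    have h13 := hv.2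
    have h12 : ((univ.filter fun u => G.Adj v u ∧ u ∉ univ.filter fun v => σ v = true).card : ℝ) =
        ((N v).filter fun u => σ u = false).card := by
      congr 2
      ext u
      simp only [N, mem_filter, mem_univ, true_and, Bool.not_eq_true]
    have h16 := signs_card_false (N v) σ
    rw [hN] at h16
    have h17 : ((N v).filter fun u => σ u = false).card < (1 / 2 - δ) * (dgc G v : ℝ) := by
      rw [← h12]
      convert h13
    simp only [bad]
    linarith

end Pool.Agent.Work.DelAsy
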