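import Pool.Agent.Work.DelAsy.Defs
import Pool.Agent.Work.DelAsy.Prob

set_option autoImplicit false

/-! U2 (b): the random subgraph and the random arcs. One coordinate per ordered pair; only the pairs
`(u, v)` with `u < v` adjacent in `G` are used; value `0`: the edge is in `S`, value `1`: arc `u → v`,
value `2`: arc `v → u`. -/

namespace Pool.Agent.Work.DelAsy

open Finset Pool.Agent.Work.MP_60abc6_co

variable {n : ℕ}

/-- the weights -/
noncomputable def wt (p : ℝ) : Fin 3 → ℝ := ![p, (1 - p) / 2, (1 - p) / 2]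

/-- the random subgraph -/
def Sg (G : SimpleGraph (Fin n)) (ω : Fin n × Fin n → Fin 3) : SimpleGraph (Fin n) where
  Adj u v := G.Adj u v ∧ ω (min u v, max u v) = 0
  symm := ⟨fun u v h => ⟨h.1.symm, by rw [min_comm, max_comm]; exact h.2⟩⟩
  loopless := ⟨fun u h => G.loopless.irrefl u h.1⟩

open Classical in
/-- the random arcs -/
noncomputable def Ar (G : SimpleGraph (Fin n)) (ω : Fin n × Fin n → Fin 3) :
    Finset (Fin n × Fin n) :=
  univ.filter fun a => G.Adj a.1 a.2 ∧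
    ((a.1 < a.2 ∧ ω (a.1, a.2) = 1) ∨ (a.2 < a.1 ∧ ω (a.2, a.1) = 2))

theorem wt_nonneg {p : ℝ} (h0 : 0 ≤ p) (h1 : p ≤ 1) (o : Fin 3) : 0 ≤ wt p o := by
  fin_cases o
  · simpa [wt] using h0
  · simp only [wt]
    show 0 ≤ (1 - p) / 2
    linarith
  · simp only [wt]
    show 0 ≤ (1 - p) / 2
    linarith

theorem wt_sum (p : ℝ) : ∑ o, wt p o = 1 := by
  rw [Fin.sum_univ_three]
  show p + (1 - p) / 2 + (1 - p) / 2 = 1
  ring

theorem Sg_le (G : SimpleGraph (Fin n)) (ω : Fin n × Fin n → Fin 3) : Sg G ω ≤ G :=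
  fun _ _ h => h.1

theorem Ar_spec (G : SimpleGraph (Fin n)) (ω : Fin n × Fin n → Fin 3) :
    ∀ a ∈ Ar G ω, G.Adj a.1 a.2 ∧ ¬ (Sg G ω).Adj a.1 a.2 ∧ (a.2, a.1) ∉ Ar G ω := by
  classical
  intro a ha
  unfold Ar at ha
  rw [mem_filter] at ha
  obtain ⟨-, hadj, h⟩ := ha
  refine ⟨hadj, ?_, ?_⟩
  · rintro ⟨-, h0⟩
    rcases h with ⟨hlt, h1⟩ | ⟨hlt, h1⟩
    · rw [min_eq_left hlt.le, max_eq_right hlt.le, h1] at h0
      exact absurd h0 (by decide)
    · rw [min_eq_right hlt.le, max_eq_left hlt.le, h1] at h0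
      exact absurd h0 (by decide)
  · intro h2
    unfold Ar at h2
    rw [mem_filter] at h2
    obtain ⟨-, -, h2⟩ := h2
    rcases h with ⟨hlt, h1⟩ | ⟨hlt, h1⟩ <;> rcases h2 with ⟨hlt', h1'⟩ | ⟨hlt', h1'⟩
    · exact absurd hlt (not_lt.2 hlt'.le)
    · rw [h1] at h1'
      exact absurd h1' (by decide)
    · rw [h1] at h1'
      exact absurd h1' (by decide)
    · exact absurd hlt (not_lt.2 hlt'.le)

theorem space_card (P : Finset (Fin n × Fin n)) (hP : ∀ a ∈ P, a.1 ≠ a.2) :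
    (P.card : ℝ) = ∑ i : Fin n × Fin n, if i.1 < i.2 then
      ((if i ∈ P then (1 : ℝ) else 0) + (if (i.2, i.1) ∈ P then 1 else 0)) else 0 := by
  have h1 : (P.card : ℝ) = ∑ i : Fin n × Fin n, if i ∈ P then (1 : ℝ) else 0 := by
    rw [sum_ite_mem, univ_inter, sum_const, nsmul_eq_mul, mul_one]
  have h2 : ∀ i : Fin n × Fin n, (if i ∈ P then (1 : ℝ) else 0) =
      (if i.1 < i.2 then (if i ∈ P then (1 : ℝ) else 0) else 0) +
      (if i.2 < i.1 then (if i ∈ P then (1 : ℝ) else 0) else 0) := by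
    intro i
    rcases lt_trichotomy i.1 i.2 with h | h | h
    · rw [if_pos h, if_neg (not_lt.2 h.le), add_zero]
    · rw [if_neg (fun hi => hP i hi h), if_neg (by rw [h]; exact lt_irrefl _),
        if_neg (by rw [h]; exact lt_irrefl _), add_zero]
    · rw [if_pos h, if_neg (not_lt.2 h.le), zero_add]
  have h3 : ∑ i : Fin n × Fin n, (if i.2 < i.1 then (if i ∈ P then (1 : ℝ) else 0) else 0) =
      ∑ i : Fin n × Fin n, (if i.1 < i.2 then (if (i.2, i.1) ∈ P then (1 : ℝ) else 0) else 0) :=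
    Fintype.sum_equiv (Equiv.prodComm _ _) _ _ fun i => rfl
  rw [h1, sum_congr rfl (fun i _ => h2 i), sum_add_distrib, h3, ← sum_add_distrib]
  refine sum_congr rfl fun i _ => ?_
  split_ifs <;> simp

/-- lower tail for one cut of `S` -/
theorem cut_tail (G : SimpleGraph (Fin n)) (U : Finset (Fin n)) {p : ℝ} (h0 : 0 ≤ p) (h1 : p ≤ 1)
    (s t : ℝ) (hs : 0 ≤ s) :
    pr (wt p) (fun ω : Fin n × Fin n → Fin 3 => (dX (Sg G ω) U : ℝ) ≤ t) ≤
      Real.exp (s * t - s * (p * dX G U) + s ^ 2 / 2 * (p * dX G U)) := by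
  classical
  -- the unordered pairs separated by `U`
  let Q : Fin n × Fin n → Prop := fun i => i.1 < i.2 ∧ G.Adj i.1 i.2 ∧
    ((i.1 ∈ U ∧ i.2 ∉ U) ∨ (i.2 ∈ U ∧ i.1 ∉ U))
  let Y : Fin n × Fin n → Fin 3 → ℝ := fun i o => if Q i ∧ o = 0 then 1 else 0
  have hdX : ∀ H : SimpleGraph (Fin n), (dX H U : ℝ) = ∑ i : Fin n × Fin n,
      if i.1 < i.2 ∧ H.Adj i.1 i.2 ∧ ((i.1 ∈ U ∧ i.2 ∉ U) ∨ (i.2 ∈ U ∧ i.1 ∉ U)) then
        (1 : ℝ) else 0 := by
    intro H
    unfold dX
    rw [space_card]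
    · refine sum_congr rfl fun i _ => ?_
      simp only [mem_filter, mem_product, mem_sdiff, mem_univ, true_and]
      by_cases hlt : i.1 < i.2
      · by_cases hadj : H.Adj i.1 i.2
        · have hadj' := hadj.symm
          by_cases h1 : i.1 ∈ U <;> by_cases h2 : i.2 ∈ U <;> simp [hlt, hadj, hadj', h1, h2]
        · have hadj' : ¬ H.Adj i.2 i.1 := fun h => hadj h.symm
          simp [hadj, hadj']
      · simp [hlt]
    · intro a ha
      rw [mem_filter] at ha
      exact ha.2.ne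
  have hY : ∀ ω : Fin n × Fin n → Fin 3, ∑ i, Y i (ω i) = (dX (Sg G ω) U : ℝ) := by
    intro ω
    rw [hdX]
    refine sum_congr rfl fun i _ => ?_
    simp only [Y, Q]
    refine if_congr ?_ rfl rfl
    constructor
    · rintro ⟨⟨hlt, hadj, hsep⟩, ho⟩
      refine ⟨hlt, ⟨hadj, ?_⟩, hsep⟩
      rw [min_eq_left hlt.le, max_eq_right hlt.le]
      exact ho
    · rintro ⟨hlt, ⟨hadj, ho⟩, hsep⟩
      rw [min_eq_left hlt.le, max_eq_right hlt.le] at ho
      exact ⟨⟨hlt, hadj, hsep⟩, ho⟩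
  have hmean : ∑ i, ∑ o, wt p o * Y i o = p * dX G U := by
    rw [hdX, mul_sum]
    refine sum_congr rfl fun i _ => ?_
    rw [Fin.sum_univ_three]
    simp only [Y]
    rw [if_neg (show ¬ (Q i ∧ (1 : Fin 3) = 0) from fun h => absurd h.2 (by decide)),
      if_neg (show ¬ (Q i ∧ (2 : Fin 3) = 0) from fun h => absurd h.2 (by decide))]
    show p * _ + _ * 0 + _ * 0 = _
    rw [mul_zero, mul_zero, add_zero, add_zero]
    congr 1
    refine if_congr ?_ rfl rfl
    simp [Q]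
  have h := chernoff (wt p) (wt_nonneg h0 h1) (wt_sum p) Y (fun i o => by
    simp only [Y]
    split_ifs
    · exact Or.inr rfl
    · exact Or.inl rfl) s t hs
  rw [hmean] at h
  simp only [hY] at h
  exact h

/-- lower tail for the number of arcs from `A` to the complement of `B` -/
theorem arc_tail (G : SimpleGraph (Fin n)) (A B : Finset (Fin n)) {p : ℝ} (h0 : 0 ≤ p)
    (h1 : p ≤ 1) (s t : ℝ) (hs : 0 ≤ s) :
    pr (wt p) (fun ω : Fin n × Fin n → Fin 3 => (eA (Ar G ω) A B : ℝ) ≤ t) ≤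
      Real.exp (s * t - s * ((1 - p) / 2 * E1 G A B) + s ^ 2 / 2 * ((1 - p) / 2 * E1 G A B)) := by
  classical
  let Y : Fin n × Fin n → Fin 3 → ℝ := fun i o => if i.1 < i.2 ∧ G.Adj i.1 i.2 ∧
    ((o = 1 ∧ i.1 ∈ A ∧ i.2 ∉ B) ∨ (o = 2 ∧ i.2 ∈ A ∧ i.1 ∉ B)) then 1 else 0
  have hY : ∀ ω : Fin n × Fin n → Fin 3, ∑ i, Y i (ω i) = (eA (Ar G ω) A B : ℝ) := by
    intro ω
    unfold eA Ar
    rw [space_card]
    · refine sum_congr rfl fun i _ => ?_
      simp only [Y, mem_filter, mem_univ, true_and]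
      by_cases hlt : i.1 < i.2
      · have hlt' : ¬ i.2 < i.1 := not_lt.2 hlt.le
        by_cases hadj : G.Adj i.1 i.2
        · have hadj' := hadj.symm
          by_cases h1 : ω i = 1
          · have h2 : ¬ ω i = 2 := by rw [h1]; decide
            have h1' : ω (i.1, i.2) = 1 := h1
            by_cases h3 : i.1 ∈ A <;> by_cases h4 : i.2 ∈ B <;>
              simp [hlt, hlt', hadj, hadj', h1, h3, h4]
          · have h1' : ¬ ω (i.1, i.2) = 1 := h1
            by_cases h2 : ω i = 2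
            · have h2' : ω (i.1, i.2) = 2 := h2
              by_cases h3 : i.2 ∈ A <;> by_cases h4 : i.1 ∈ B <;>
                simp [hlt, hlt', hadj, hadj', h2, h3, h4]
            · have h2' : ¬ ω (i.1, i.2) = 2 := h2
              simp [hlt, hlt', hadj, hadj', h1, h2]
        · have hadj' : ¬ G.Adj i.2 i.1 := fun h => hadj h.symm
          simp [hadj, hadj']
      · simp [hlt]
    · intro a ha
      rw [mem_filter, mem_filter] at ha
      exact ha.1.2.1.ne
  have hE : (E1 G A B : ℝ) = ∑ i : Fin n × Fin n, if i.1 < i.2 then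
      ((if G.Adj i.1 i.2 ∧ i.1 ∈ A ∧ i.2 ∉ B then (1 : ℝ) else 0) +
        (if G.Adj i.2 i.1 ∧ i.2 ∈ A ∧ i.1 ∉ B then 1 else 0)) else 0 := by
    unfold E1
    rw [space_card]
    · refine sum_congr rfl fun i _ => ?_
      simp only [mem_filter, mem_univ, true_and]
    · intro a ha
      simp only [mem_filter, mem_univ, true_and] at ha
      exact ha.1.ne
  have hmean : ∑ i, ∑ o, wt p o * Y i o = (1 - p) / 2 * E1 G A B := by
    rw [hE, mul_sum]
    refine sum_congr rfl fun i _ => ?_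
    rw [Fin.sum_univ_three]
    show p * Y i 0 + (1 - p) / 2 * Y i 1 + (1 - p) / 2 * Y i 2 = _
    simp only [Y]
    by_cases hlt : i.1 < i.2
    · by_cases hadj : G.Adj i.1 i.2
      · have hadj' := hadj.symm
        by_cases h1 : i.1 ∈ A <;> by_cases h2 : i.2 ∈ B <;> by_cases h3 : i.2 ∈ A <;>
          by_cases h4 : i.1 ∈ B <;> simp [hlt, hadj, hadj', h1, h2, h3, h4] <;> ring
      · have hadj' : ¬ G.Adj i.2 i.1 := fun h => hadj h.symm
        simp [hadj, hadj']
    · simp [hlt]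
  have h := chernoff (wt p) (wt_nonneg h0 h1) (wt_sum p) Y (fun i o => by
    simp only [Y]
    split_ifs
    · exact Or.inr rfl
    · exact Or.inl rfl) s t hs
  rw [hmean] at h
  simp only [hY] at h
  exact h

end Pool.Agent.Work.DelAsy
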